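import Mathlib
import Pool.Agent.H95.Ram.LogEmbed

/-!
# `r`-degenerate graphs against `K_{n,n}`: a logarithmic factor at every step

For every `r` and every `r`-degenerate graph `H` we have
`R(H, K_{n,n}) = O(n ^ (r + 1) / (log n) ^ r)`.

Proof.  Let `G` be a graph without `K_{n,n}` in its complement.  For a set `W` of size at least
`4 n 3 ^ q`, fewer than `2 n` vertices have fewer than `q |W| / (8 n)` neighbours in `W`: otherwise
take `2 n` such vertices and average over their `n`-subsets `A`; each `A` dominates all but `n`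
vertices of `W`, but most vertices of `W` have at most `q` neighbours among the `2 n` vertices and
so are missed by a proportion `3 ^ (- q)` of the subsets `A`.  So in the greedy embedding of `H`
every passage from common neighbourhoods of `i` embedded vertices to those of `i + 1` embedded
vertices costs a factor `O(n / log n)` instead of `n`.
-/

set_option autoImplicit false

namespace Pool.Agent.Results.MP_cdbf1d_co.LogSaving

open Finset Pool.Agent.H38.Ram Pool.Agent.H95.Ram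

theorem result :
    ∀ r k : ℕ, ∀ H : SimpleGraph (Fin k),
      (∃ f : Fin k → ℕ, Function.Injective f ∧
        ∀ v : Fin k, Set.ncard {u : Fin k | H.Adj u v ∧ f u < f v} ≤ r) →
      ∃ C : ℝ, ∀ n N : ℕ, 2 ≤ n →
        C * (n : ℝ) ^ (r + 1) / (Real.log n) ^ r ≤ (N : ℝ) →
        ∀ G : SimpleGraph (Fin N),
          H.IsContained G ∨ (completeBipartiteGraph (Fin n) (Fin n)).IsContained Gᶜ := by
  classical
  intro r k H hdeg
  obtain ⟨f, hf, hback⟩ := hdeg
  set c : ℕ := 2 ^ (k + 1) + k + 1 with hc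
  refine ⟨(c : ℝ) * 8 ^ r * 6 ^ (r + 1) * 4 ^ r, ?_⟩
  intro n N hn2 hN G
  by_cases hcont : (completeBipartiteGraph (Fin n) (Fin n)).IsContained Gᶜ
  · exact Or.inr hcont
  left
  set m : ℕ := max n 6 with hm
  have hnm : n ≤ m := le_max_left _ _
  have hm6 : 6 ≤ m := le_max_right _ _
  have hmn : m ≤ 6 * n := by omega
  set q : ℕ := Nat.log 6 m with hq
  have hqm : 6 ^ q ≤ m := Nat.pow_log_le_self 6 (by omega)
  have hmq : m < 6 ^ (q + 1) := Nat.lt_pow_succ_log_self (by norm_num) m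
  have hq1 : 1 ≤ q := Nat.log_pos (by norm_num) hm6
  have hq2 : q < 2 ^ q := Nat.lt_two_pow_self
  have h36 : 3 ^ q * 2 ^ q = 6 ^ q := by rw [← mul_pow]; norm_num
  have h3q : 3 ≤ 3 ^ q := by
    calc 3 = 3 ^ 1 := (pow_one 3).symm
      _ ≤ 3 ^ q := Nat.pow_le_pow_right (by norm_num) hq1
  have hqq : 2 * q ≤ m := by
    calc 2 * q ≤ 3 ^ q * 2 ^ q := Nat.mul_le_mul (by omega) hq2.le
      _ = 6 ^ q := h36
      _ ≤ m := hqm
  have hq3 : 3 ^ q * q ≤ m := by
    calc 3 ^ q * q ≤ 3 ^ q * 2 ^ q := Nat.mul_le_mul_left _ hq2.le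
      _ = 6 ^ q := h36
      _ ≤ m := hqm
  have hn1 : (2 : ℝ) ≤ n := by exact_mod_cast hn2
  have hlogpos : 0 < Real.log n := Real.log_pos (by linarith)
  have hlog6 : Real.log 6 ≤ 2 := by
    rw [Real.log_le_iff_le_exp (by norm_num)]
    have h1 := Real.exp_one_gt_d9
    have h2 : Real.exp 2 = Real.exp 1 * Real.exp 1 := by
      rw [← Real.exp_add]; norm_num
    rw [h2]
    nlinarith
  have hlogq : Real.log n ≤ 4 * q := by
    have h1 : (n : ℝ) ≤ (6 : ℝ) ^ (q + 1) := by
      have : n ≤ 6 ^ (q + 1) := by omega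
      exact_mod_cast this
    have h2 : Real.log n ≤ ((q + 1 : ℕ) : ℝ) * Real.log 6 := by
      rw [← Real.log_pow]
      exact Real.log_le_log (by linarith) h1
    have h3 : ((q + 1 : ℕ) : ℝ) ≤ 2 * q := by
      have : q + 1 ≤ 2 * q := by omega
      exact_mod_cast this
    have h4 : 0 ≤ Real.log 6 := Real.log_nonneg (by norm_num)
    calc Real.log n ≤ ((q + 1 : ℕ) : ℝ) * Real.log 6 := h2
      _ ≤ (2 * q) * Real.log 6 := mul_le_mul_of_nonneg_right h3 h4
      _ ≤ (2 * q) * 2 := mul_le_mul_of_nonneg_left hlog6 (by positivity)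
      _ = 4 * q := by ring
  have hNm : c * m * (8 * m) ^ r ≤ q ^ r * N := by
    have h1 : (c : ℝ) * 8 ^ r * 6 ^ (r + 1) * 4 ^ r * (n : ℝ) ^ (r + 1) ≤
        N * (Real.log n) ^ r := by
      rwa [div_le_iff₀ (by positivity)] at hN
    have h2 : (N : ℝ) * (Real.log n) ^ r ≤ N * (4 * q) ^ r := by
      apply mul_le_mul_of_nonneg_left _ (Nat.cast_nonneg N)
      exact pow_le_pow_left₀ hlogpos.le hlogq r
    have h3 : (m : ℝ) ^ (r + 1) ≤ 6 ^ (r + 1) * (n : ℝ) ^ (r + 1) := by
      rw [← mul_pow]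
      apply pow_le_pow_left₀ (Nat.cast_nonneg m)
      exact_mod_cast hmn
    have h4 : (4 : ℝ) ^ r * ((c : ℝ) * m * (8 * m) ^ r) ≤ 4 ^ r * ((q : ℝ) ^ r * N) := by
      calc (4 : ℝ) ^ r * ((c : ℝ) * m * (8 * m) ^ r)
          = (c : ℝ) * 8 ^ r * 4 ^ r * (m : ℝ) ^ (r + 1) := by ring
        _ ≤ (c : ℝ) * 8 ^ r * 4 ^ r * (6 ^ (r + 1) * (n : ℝ) ^ (r + 1)) :=
          mul_le_mul_of_nonneg_left h3 (by positivity)
        _ = (c : ℝ) * 8 ^ r * 6 ^ (r + 1) * 4 ^ r * (n : ℝ) ^ (r + 1) := by ring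
        _ ≤ N * (Real.log n) ^ r := h1
        _ ≤ N * (4 * q) ^ r := h2
        _ = _ := by ring
    have h5 : (c : ℝ) * m * (8 * m) ^ r ≤ (q : ℝ) ^ r * N :=
      le_of_mul_le_mul_left h4 (by positivity)
    exact_mod_cast h5
  have hJ : Joined G m := by
    intro A B hAB hA hB
    exact joined_of_not_contained G n hcont A B hAB (hnm.trans hA) (hnm.trans hB)
  exact log_embed G hJ (by omega) hq1 hqq hq3 (by simpa using hNm) H f hf hback

end Pool.Agent.Results.MP_cdbf1d_co.LogSaving
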