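import Mathlib
import Pool.Agent.H38.Ram.PowerSaving

/-!
# A polynomial saving for graphs that are `2`-degenerate up to `s` vertices

Let `H` be a graph on `k` vertices such that `H - Z` is `2`-degenerate for a set `Z` of at most `s`
vertices (so `H` is `(s + 2)`-degenerate; for `s = 0` this is every `2`-degenerate graph). Then
`R(H, K_{n,n}) = O(n ^ (s + 3 - c))` with `c = 1 / 9` if `H - Z` is bipartite and
`c = 1 / (8 k) ^ k` in general.

The vertices of `Z` are embedded first, in a clique with a large common neighbourhood; this costs
a factor `n` for each of them (`apex_transfer`). So let `s = 0`.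

Bipartite `H`.  Put `n = t ^ 9` and let `G` have at least `C * t ^ 26` vertices, contain no `H`, and
have no `K_{n,n}` in its complement.  Two rounds of dependent random choice show that for every set
`D` of at most `t ^ 9` vertices fewer than `t ^ 8` vertices have `8 k t ^ 8` neighbours in `D`.  So
for typical pairs `a, v` the vertex `a` has few neighbours in the set of the fewer than `n` vertices
whose common neighbourhood with `v` is too small, and the greedy embedding of `H` only needs
common neighbourhoods of size `C' t ^ 8` instead of size `C' n`.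

General `H`.  Put `n = M ^ L` with `L = (8 k) ^ k` and let `G` have `C * M ^ (3 L - 1)` vertices,
contain no `H`, and have no `K_{n,n}` in its complement.  If `|Y| ≤ n M ^ p`, then only few (at most
`n M ^ q`, with `q` depending on `p` and `k`) vertices have `n / M` neighbours in `Y`: otherwise
dependent random choice gives a set `W` of size at least `(2 k + 2) n` all of whose `k`-tuples have
`2 k` common neighbours in `Y`, and `H` splits into an independent set `I` (placed in `Y`) and a set
inducing a graph in which every vertex has at most one earlier neighbour (placed in `W`).  Then the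
vertices of `H` are embedded in order, in a decreasing chain of vertex sets `U_j` and with symmetric
forbidden relations `R_j`, where `R_{j+1}` adds to `R_j` the pairs with few common neighbours in
`U_j`, and the pairs `(u, a)` such that `a` has at least `n / M` neighbours in `R_j(u)`.
-/

set_option autoImplicit false

namespace Pool.Agent.Results.MP_cdbf1d_co.PowerSaving

open Pool.Agent.H38.Ram

theorem result :
    ∀ s k : ℕ, ∀ H : SimpleGraph (Fin k), ∀ Z : Finset (Fin k), Z.card ≤ s →
      (∃ f : Fin k → ℕ, Function.Injective f ∧ ∀ v : Fin k, v ∉ Z →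
        Set.ncard {u : Fin k | u ∉ Z ∧ H.Adj u v ∧ f u < f v} ≤ 2) →
      ∀ c : ℝ, (c = 1 / (8 * (k : ℝ)) ^ k ∨
          (c = 1 / 9 ∧ ∃ χ : Fin k → Bool, ∀ u v : Fin k, u ∉ Z → v ∉ Z → H.Adj u v → χ u ≠ χ v)) →
      ∃ C : ℝ, ∀ n N : ℕ, C * (n : ℝ) ^ ((s : ℝ) + 3 - c) ≤ (N : ℝ) →
        ∀ G : SimpleGraph (Fin N),
          H.IsContained G ∨ (completeBipartiteGraph (Fin n) (Fin n)).IsContained Gᶜ := by
  intro s k H Z hZ hdeg c hc
  rcases hc with hc | ⟨hc, χ, hχ⟩
  · subst hc
    exact near_two_degenerate s k H Z hZ hdeg
  · subst hc
    have h := apex_transfer s k H Z hZ (26 / 9) (by norm_num)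
      (bipartite_two_degenerate k (without H Z) ?_ ?_)
    · have e1 : (s : ℝ) + 3 - 1 / 9 = (s : ℝ) + 26 / 9 := by ring
      rw [e1]
      exact h
    · refine ⟨⟨fun v => if χ v then 0 else 1, ?_⟩⟩
      intro u v huv
      have h1 := hχ u v huv.2.1 huv.2.2 huv.1
      show (if χ u then (0 : Fin 2) else 1) ≠ (if χ v then (0 : Fin 2) else 1)
      cases hu : χ u <;> cases hv : χ v <;> simp_all
    · obtain ⟨f, hf, hback⟩ := hdeg
      refine ⟨f, hf, fun v => ?_⟩
      by_cases hv : v ∈ Z
      · have h0 : {u : Fin k | (without H Z).Adj u v ∧ f u < f v} = ∅ := by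
          ext u
          simp only [Set.mem_ofPred_eq, Set.mem_empty_iff_false, iff_false]
          rintro ⟨h, _⟩
          exact h.2.2 hv
        rw [h0]
        simp
      · refine le_trans (Set.ncard_le_ncard ?_ (Set.toFinite _)) (hback v hv)
        rintro u ⟨h, hlt⟩
        exact ⟨h.2.1, h.1, hlt⟩

end Pool.Agent.Results.MP_cdbf1d_co.PowerSaving
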