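import Pool.Agent.H65.TL.Main

/-!
# Three-layer graphs, and ordered graphs with a free later parent, against `K_{n,n}`

Part (1): if the vertices of `H` are divided into three independent sets `L₀, L₁, L₂` such that every
vertex of `L₁` has at most `r` neighbours in `L₀` and every vertex of `L₂` has at most two
neighbours, then `R(H, K_{n,n}) = O(n ^ r)` (`r ≥ 2`); for `r = 2` these are the `2`-degenerate graphs
with three layers.

Part (2): more generally `R(H, K_{n,n}) = O(n ^ (s + t))` if, after removing at most `s` vertices, `H` is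
in the class `Buildable t` below.

Proof.  The free vertices are embedded one after the other, each `x` together with all vertices whose
later parent is `x`.  Two vertices are poor if they have few common neighbours.  A poor pair is seen
by few vertices `x` (exactly because it is poor), so for all but `O(n ^ t)` vertices `x` of the host most
pairs of neighbours of `x` in the given large sets are not poor, whatever the host is.
-/

set_option autoImplicit false
set_option linter.unusedSectionVars false

namespace Pool.Agent.Results.MP_cdbf1d_co.ThreeLayers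

open Finset Pool.Agent.H38.Ram Pool.Agent.H65.TL

/-- The neighbours of `v` before `v` in the order given by `p`. -/
def earlier {k : ℕ} (H : SimpleGraph (Fin k)) (p : Fin k → ℕ) (v : Fin k) : Set (Fin k) :=
  {u : Fin k | H.Adj u v ∧ p u < p v}

/-- `H` can be built (`p` the order of the vertices, `T` the set of top vertices) such that
a vertex outside `T` has all its earlier neighbours outside `T`, and has at most one of them, or at
most two, the later of which has no earlier neighbour, or at most `t`, none of which has an earlier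
neighbour; a vertex of `T` has at most one earlier neighbour, or at most two, both outside `T`. -/
def Buildable {k : ℕ} (H : SimpleGraph (Fin k)) (t : ℕ) : Prop :=
  ∃ (p : Fin k → ℕ) (T : Set (Fin k)), Function.Injective p ∧ ∀ v : Fin k,
    (v ∉ T → (∀ u ∈ earlier H p v, u ∉ T) ∧
      (Set.ncard (earlier H p v) ≤ 1 ∨
       (Set.ncard (earlier H p v) ≤ 2 ∧
          ∃ x ∈ earlier H p v, earlier H p x = ∅ ∧ ∀ u ∈ earlier H p v, p u ≤ p x) ∨
       (Set.ncard (earlier H p v) ≤ t ∧ ∀ u ∈ earlier H p v, earlier H p u = ∅))) ∧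
    (v ∈ T → Set.ncard (earlier H p v) ≤ 1 ∨
      (Set.ncard (earlier H p v) ≤ 2 ∧ ∀ u ∈ earlier H p v, u ∉ T))

/-- `H` with the edges at the vertices of `Z` removed. -/
def remove {k : ℕ} (H : SimpleGraph (Fin k)) (Z : Finset (Fin k)) : SimpleGraph (Fin k) where
  Adj u v := H.Adj u v ∧ u ∉ Z ∧ v ∉ Z
  symm := ⟨fun _ _ h => ⟨h.1.symm, h.2.2, h.2.1⟩⟩
  loopless := ⟨fun v h => H.loopless.irrefl v h.1⟩

/-- `R(H, K_{n,n}) = O(n ^ e)`. -/
def RamseyBound {k : ℕ} (H : SimpleGraph (Fin k)) (e : ℕ) : Prop :=
  ∃ C : ℕ, ∀ n N : ℕ, C * n ^ e ≤ N → ∀ G : SimpleGraph (Fin N),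
    H.IsContained G ∨ (completeBipartiteGraph (Fin n) (Fin n)).IsContained Gᶜ

private theorem coe_back {k : ℕ} (H : SimpleGraph (Fin k)) [DecidableRel H.Adj] (p : Fin k → ℕ)
    (v : Fin k) : ((back H p v : Finset (Fin k)) : Set (Fin k)) = earlier H p v := by
  ext u
  simp [earlier, mem_back]

private theorem ordered_of_buildable {k : ℕ} (H : SimpleGraph (Fin k)) [DecidableRel H.Adj]
    {t : ℕ} (hH : Buildable H t) : ∃ (p : Fin k → ℕ) (T : Finset (Fin k)), Ordered H t p T := by
  classical
  obtain ⟨p, T, hp, h⟩ := hH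
  refine ⟨p, Finset.univ.filter (fun v => v ∈ T), hp, ?_⟩
  have hmem : ∀ v u, u ∈ back H p v ↔ u ∈ earlier H p v := by
    intro v u
    rw [← coe_back H p v, Finset.mem_coe]
  have hcard : ∀ v, Set.ncard (earlier H p v) = (back H p v).card := by
    intro v
    rw [← coe_back H p v, Set.ncard_coe_finset]
  have hemp : ∀ v, earlier H p v = ∅ ↔ back H p v = ∅ := by
    intro v
    rw [← coe_back H p v, Finset.coe_eq_empty]
  intro v
  have hv := h v
  simp only [hcard, hemp, ← hmem] at hv
  simp only [Finset.mem_filter, Finset.mem_univ, true_and]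
  refine ⟨fun hvT => ⟨(hv.1 hvT).1, ?_⟩, hv.2⟩
  exact (hv.1 hvT).2

private theorem ordered_congr {k r : ℕ} {H H' : SimpleGraph (Fin k)} (i : DecidableRel H.Adj)
    (i' : DecidableRel H'.Adj) (h : H' = H) {p : Fin k → ℕ} {T : Finset (Fin k)}
    (hO : @Ordered k H i r p T) : @Ordered k H' i' r p T := by
  subst h
  have he : i = i' := Subsingleton.elim _ _
  subst he
  exact hO

private theorem main_part : ∀ s t k : ℕ, 2 ≤ t → ∀ (H : SimpleGraph (Fin k))
    (Z : Finset (Fin k)), Z.card ≤ s → Buildable (remove H Z) t → RamseyBound H (s + t) := by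
  classical
  intro s t k ht H Z hZ hB
  have hcut : cut H Z = remove H Z := rfl
  rw [← hcut] at hB
  obtain ⟨p, T, hO⟩ := ordered_of_buildable (cut H Z) hB
  exact bound_of_ordered ht Z hZ p T hO

private theorem layer_part : ∀ r k : ℕ, 2 ≤ r → ∀ (H : SimpleGraph (Fin k)) (c : Fin k → Fin 3),
      (∀ u v : Fin k, H.Adj u v → c u ≠ c v) →
      (∀ v : Fin k, c v = 1 → Set.ncard {u : Fin k | H.Adj u v ∧ c u < c v} ≤ r) →
      (∀ v : Fin k, c v = 2 → Set.ncard {u : Fin k | H.Adj u v ∧ c u < c v} ≤ 2) →
      RamseyBound H r := by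
  classical
  intro r k hr H c hc h1 h2
  have hcard : ∀ v : Fin k, Set.ncard {u : Fin k | H.Adj u v ∧ c u < c v} =
      (Finset.univ.filter (fun u => H.Adj u v ∧ c u < c v)).card := by
    intro v
    rw [← Set.ncard_coe_finset]
    congr 1
    ext u
    simp
  obtain ⟨p, T, hO⟩ := layered (H := H) hr c hc (fun v hv => (hcard v) ▸ h1 v hv)
    (fun v hv => (hcard v) ▸ h2 v hv)
  have hcut : cut H ∅ = H := by
    ext u v
    simp [cut]
  have hO' : Ordered (cut H ∅) r p T := ordered_congr _ _ hcut hO
  have := bound_of_ordered (H := H) (s := 0) hr ∅ (by simp) p T hO'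
  rw [Nat.zero_add] at this
  exact this

theorem result :
    (∀ r k : ℕ, 2 ≤ r → ∀ (H : SimpleGraph (Fin k)) (c : Fin k → Fin 3),
      (∀ u v : Fin k, H.Adj u v → c u ≠ c v) →
      (∀ v : Fin k, c v = 1 → Set.ncard {u : Fin k | H.Adj u v ∧ c u < c v} ≤ r) →
      (∀ v : Fin k, c v = 2 → Set.ncard {u : Fin k | H.Adj u v ∧ c u < c v} ≤ 2) →
      RamseyBound H r) ∧
    (∀ s t k : ℕ, 2 ≤ t → ∀ (H : SimpleGraph (Fin k)) (Z : Finset (Fin k)), Z.card ≤ s →
      Buildable (remove H Z) t → RamseyBound H (s + t)) :=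
  ⟨layer_part, main_part⟩

end Pool.Agent.Results.MP_cdbf1d_co.ThreeLayers
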