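import Mathlib
import Pool.Agent.H38.Ram.TW

/-!
# Graphs of treewidth at most `r` against `K_{n,n}`

For every graph `H` of treewidth at most `r` we have `R(H, K_{n,n}) = O(n ^ r)`.

Proof.  If the complement of `G` has no `K_{n,n}` then, by induction on `r`, every vertex set `W`
with at least `4 * 8 ^ r * n ^ r` elements satisfies
`|W| * k_r(W) ≤ 8 ^ r * n ^ r * k_{r+1}(W)`, where `k_r(W)` counts the ordered `r`-cliques in `W`.
So on `C * n ^ r` vertices there are far more `(r+1)`-cliques than `r`-cliques, and a cleaning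
argument gives a nonempty family of `(r+1)`-cliques in which the place of every vertex can be
refilled in at least `|V(H)|` ways.  A chordal supergraph of `H` is embedded into it greedily.
-/

set_option autoImplicit false

namespace Pool.Agent.Results.MP_cdbf1d_co.TreewidthLE

open Finset Pool.Agent.H38.Ram

/-- `H` has treewidth at most `r`: it is a spanning subgraph of a graph `H'` with a perfect
elimination ordering in which every vertex has at most `r` earlier neighbours. -/
def HasTreewidthLE {k : ℕ} (H : SimpleGraph (Fin k)) (r : ℕ) : Prop :=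
  ∃ (H' : SimpleGraph (Fin k)) (f : Fin k → ℕ), H ≤ H' ∧ Function.Injective f ∧
    ∀ v : Fin k, H'.IsClique {u : Fin k | H'.Adj u v ∧ f u < f v} ∧
      Set.ncard {u : Fin k | H'.Adj u v ∧ f u < f v} ≤ r

theorem result :
    ∀ r k : ℕ, ∀ H : SimpleGraph (Fin k), HasTreewidthLE H r →
      ∃ C : ℕ, ∀ n N : ℕ, C * n ^ r ≤ N →
        ∀ G : SimpleGraph (Fin N),
          H.IsContained G ∨ (completeBipartiteGraph (Fin n) (Fin n)).IsContained Gᶜ := by
  classical
  intro r k H hH
  obtain ⟨H', f, hle, hf, hback⟩ := hH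
  refine ⟨8 ^ r * (k * (r + 1) + 4), ?_⟩
  intro n N hN G
  rcases Nat.eq_zero_or_pos n with hn0 | hn
  · right
    subst hn0
    exact SimpleGraph.IsContained.of_isEmpty
  by_cases hcont : (completeBipartiteGraph (Fin n) (Fin n)).IsContained Gᶜ
  · exact Or.inr hcont
  left
  have hJ : Joined G n := joined_of_not_contained G n hcont
  have hNc : (Finset.univ : Finset (Fin N)).card = N := by simp
  have h4 : 4 * 8 ^ r * n ^ r ≤ (Finset.univ : Finset (Fin N)).card := by
    rw [hNc]
    refine le_trans ?_ hN
    apply Nat.mul_le_mul_right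
    calc 4 * 8 ^ r = 8 ^ r * 4 := by ring
      _ ≤ _ := Nat.mul_le_mul_left _ (by omega)
  have hpos := oc_pos G hJ hn r Finset.univ h4
  have hcount := clique_count G hJ hn r Finset.univ h4
  set a := (oc G r (Finset.univ : Finset (Fin N))).card with ha
  set b := (oc G (r + 1) (Finset.univ : Finset (Fin N))).card with hb
  have hP1 : 0 < 8 ^ r * n ^ r := by positivity
  have hab : (k * (r + 1) + 4) * a ≤ b := by
    rw [hNc] at hcount
    have h1 : 8 ^ r * (k * (r + 1) + 4) * n ^ r * a ≤ 8 ^ r * n ^ r * b :=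
      (Nat.mul_le_mul_right _ hN).trans hcount
    have h2 : (8 ^ r * n ^ r) * ((k * (r + 1) + 4) * a) ≤ (8 ^ r * n ^ r) * b := by
      calc (8 ^ r * n ^ r) * ((k * (r + 1) + 4) * a)
          = 8 ^ r * (k * (r + 1) + 4) * n ^ r * a := by ring
        _ ≤ _ := h1
    exact Nat.le_of_mul_le_mul_left h2 hP1
  have hsh : ((Finset.univ ×ˢ (oc G (r + 1) (Finset.univ : Finset (Fin N)))).image
      (fun p : Fin (r + 1) × (Fin (r + 1) → Fin N) => (p.1, p.1.removeNth p.2))).card
      ≤ (r + 1) * a := by
    have hsub : ((Finset.univ ×ˢ (oc G (r + 1) (Finset.univ : Finset (Fin N)))).image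
      (fun p : Fin (r + 1) × (Fin (r + 1) → Fin N) => (p.1, p.1.removeNth p.2))) ⊆
        (Finset.univ : Finset (Fin (r + 1))) ×ˢ (oc G r (Finset.univ : Finset (Fin N))) := by
      intro x hx
      rw [Finset.mem_image] at hx
      obtain ⟨⟨i, g⟩, hp, rfl⟩ := hx
      rw [Finset.mem_product] at hp ⊢
      refine ⟨Finset.mem_univ _, ?_⟩
      have hg := hp.2
      rw [mem_oc] at hg ⊢
      refine ⟨fun _ => Finset.mem_univ _, ?_⟩
      intro p q hpq
      exact hg.2 _ _ (fun h => hpq (Fin.succAbove_right_injective h))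
    refine (Finset.card_le_card hsub).trans ?_
    rw [Finset.card_product, Finset.card_univ, Fintype.card_fin]
  have hlt : k * ((Finset.univ ×ˢ (oc G (r + 1) (Finset.univ : Finset (Fin N)))).image
      (fun p : Fin (r + 1) × (Fin (r + 1) → Fin N) => (p.1, p.1.removeNth p.2))).card
      < (oc G (r + 1) (Finset.univ : Finset (Fin N))).card := by
    refine lt_of_le_of_lt (Nat.mul_le_mul_left _ hsh) ?_
    have h1 : k * ((r + 1) * a) + 4 * a = (k * (r + 1) + 4) * a := by ring
    have h2 : b = (oc G (r + 1) (Finset.univ : Finset (Fin N))).card := hb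
    omega
  obtain ⟨F, hFsub, hFne, hF⟩ := cleaning k _ hlt
  have hemb := embed_clean G H' f hf hback F
    (fun g hg => ((mem_oc G).1 (hFsub hg)).2) hFne hF
  exact SimpleGraph.IsContained.mono_left hle hemb

end Pool.Agent.Results.MP_cdbf1d_co.TreewidthLE
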